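import Pool.Agent.H798.BV.Stm7

set_option autoImplicit false

/-!
# B7-L4 for helper798 (helper570): basic facts when `θ ≥ 1 - δ`
-/

namespace Pool.Agent.H570.BV

open Pool.Agent.H798.BV

theorem pk (a : ℝ) (w l : ℂ) (h : l * ((a : ℂ) - w) = 1) :
    ‖l‖ * ‖(a : ℂ) - w‖ = 1 ∧ ‖1 - (a : ℂ) * l‖ = ‖w‖ * ‖l‖ ∧
    (‖1 - (a : ℂ) * l‖ - (1 - (a : ℂ) * l).re) * ‖(a : ℂ) - w‖ ^ 2 =
      ‖w‖ * ‖(a : ℂ) - w‖ - ‖w‖ ^ 2 + a * w.re ∧
    ‖l + (starRingEnd ℂ) w‖ ^ 2 =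
      (‖l‖ - ‖w‖) ^ 2 + 2 * (‖1 - (a : ℂ) * l‖ - (1 - (a : ℂ) * l).re) ∧
    a ^ 2 * l.im ^ 2 = (‖1 - (a : ℂ) * l‖ - (1 - (a : ℂ) * l).re) *
      (‖1 - (a : ℂ) * l‖ + (1 - (a : ℂ) * l).re) ∧
    ‖(a : ℂ) - w‖ ^ 2 = a ^ 2 - 2 * a * w.re + ‖w‖ ^ 2 ∧
    ‖l + (starRingEnd ℂ) w‖ ^ 2 = ‖l‖ ^ 2 + ‖w‖ ^ 2 + 2 * a * l.re - 2 := by
  have e1 : ‖l‖ * ‖(a : ℂ) - w‖ = 1 := by rw [← norm_mul, h, norm_one]
  have e0 : 1 - (a : ℂ) * l = -(w * l) := by linear_combination (-1 : ℂ) * h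
  have e2 : ‖1 - (a : ℂ) * l‖ = ‖w‖ * ‖l‖ := by rw [e0, norm_neg, norm_mul]
  have h1 : l.re * (a - w.re) + l.im * w.im = 1 := by
    have := congrArg Complex.re h
    simp at this
    linarith
  have h2 : -(l.re * w.im) + l.im * (a - w.re) = 0 := by
    have := congrArg Complex.im h
    simp at this
    linarith
  have n1 : ‖l‖ ^ 2 = l.re ^ 2 + l.im ^ 2 := by
    rw [Complex.sq_norm, Complex.normSq_apply]
    ring
  have n2 : ‖w‖ ^ 2 = w.re ^ 2 + w.im ^ 2 := by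
    rw [Complex.sq_norm, Complex.normSq_apply]
    ring
  have n3 : ‖(a : ℂ) - w‖ ^ 2 = (a - w.re) ^ 2 + w.im ^ 2 := by
    rw [Complex.sq_norm, Complex.normSq_apply]
    simp
    ring
  have n4 : ‖l + (starRingEnd ℂ) w‖ ^ 2 = (l.re + w.re) ^ 2 + (l.im - w.im) ^ 2 := by
    rw [Complex.sq_norm, Complex.normSq_apply]
    simp
    ring
  have n5 : (1 - (a : ℂ) * l).re = 1 - a * l.re := by simp
  have n6 : ‖1 - (a : ℂ) * l‖ ^ 2 = (1 - a * l.re) ^ 2 + (a * l.im) ^ 2 := by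
    rw [Complex.sq_norm, Complex.normSq_apply]
    simp
    ring
  have e3 : ‖(a : ℂ) - w‖ ^ 2 = a ^ 2 - 2 * a * w.re + ‖w‖ ^ 2 := by
    rw [n3, n2]
    ring
  have e4 : ‖l + (starRingEnd ℂ) w‖ ^ 2 = ‖l‖ ^ 2 + ‖w‖ ^ 2 + 2 * a * l.re - 2 := by
    rw [n4, n1, n2]
    linear_combination (-2 : ℝ) * h1
  have e5 : l.re * ‖(a : ℂ) - w‖ ^ 2 = a - w.re := by
    rw [n3]
    linear_combination (a - w.re) * h1 - w.im * h2
  refine ⟨e1, e2, ?_, ?_, ?_, e3, e4⟩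
  · rw [n5, e2]
    linear_combination (‖w‖ * ‖(a : ℂ) - w‖) * e1 - e3 + a * e5
  · rw [e4, n5, e2]
    ring
  · rw [n5]
    linear_combination (-1 : ℝ) * n6

theorem core (A a₁ : ℝ) (ha₁ : 0 < a₁) (hA : 1 ≤ A) (L C₂ C₃ C₄ : ℝ)
    (hL : L = 2 * (A + 1)) (hC₂ : C₂ = (A ^ 2 + 1) / 2 + 3) (hC₃ : C₃ = L ^ 2 * C₂ + 8)
    (hC₄ : C₄ = 8 * (1 + A * L) / a₁ ^ 2 * (L ^ 2 * C₂)) (m : ℕ) (w l : Fin m → ℂ) (a δ : ℝ)
    (hm : 1 ≤ m) (ha : a₁ ≤ a) (haA : a ≤ A) (hδ : 0 < δ) (hδ1 : δ ≤ 1)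
    (hlw : ∀ k, l k * ((a : ℂ) - w k) = 1) (hw0 : ∑ k, w k = 0) (hw2 : ∑ k, ‖w k‖ ^ 2 ≤ m)
    (hl2 : ∑ k, ‖l k‖ ^ 2 ≤ m) (hθ : (1 - δ) * m ≤ ∑ k, ‖w k‖ * ‖l k‖) :
    0 ≤ ((∑ k, l k) / m).re ∧
    ‖(∑ k, l k) / m‖ ≤ (2 + 2 * C₃) * Real.sqrt (Real.sqrt δ) ∧
    ‖yR L l - 1‖ ≤ (C₄ + 11) * Real.sqrt (Real.sqrt δ) ∧
    ∑ k ∈ Finset.univ.filter (fun k => L < ‖l k‖), ‖l k‖ ^ 2 ≤ 8 * δ * m ∧
    (1 - 10 * δ) * m ≤ ∑ k ∈ Finset.univ.filter (fun k => ¬ L < ‖l k‖), ‖l k‖ ^ 2 ∧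
    ∑ k ∈ Finset.univ.filter (fun k => ¬ L < ‖l k‖),
      (|(l k).im| + (‖1 - (a : ℂ) * l k‖ - (1 - (a : ℂ) * l k).re) / a) ^ 2 ≤
        C₄ * Real.sqrt δ * m := by
  have ha0 : 0 < a := lt_of_lt_of_le ha₁ ha
  have hA0 : 0 < A := by linarith
  have hm0 : (0 : ℝ) < m := by exact_mod_cast hm
  have hL0 : 0 < L := by rw [hL]; linarith
  have hC₂0 : 0 < C₂ := by rw [hC₂]; positivity
  have hC₃0 : 0 < C₃ := by rw [hC₃]; positivity
  have hC₄0 : 0 ≤ C₄ := by rw [hC₄]; positivity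
  -- square roots
  obtain ⟨t, ht⟩ : ∃ t, t = Real.sqrt δ := ⟨_, rfl⟩
  obtain ⟨q, hq⟩ : ∃ q, q = Real.sqrt t := ⟨_, rfl⟩
  have ht0 : 0 < t := by rw [ht]; exact Real.sqrt_pos.2 hδ
  have hq0 : 0 < q := by rw [hq]; exact Real.sqrt_pos.2 ht0
  have htt : t ^ 2 = δ := by rw [ht]; exact Real.sq_sqrt hδ.le
  have hqq : q ^ 2 = t := by rw [hq]; exact Real.sq_sqrt ht0.le
  have ht1 : t ≤ 1 := by rw [ht]; exact Real.sqrt_le_one.2 hδ1
  have hq1 : q ≤ 1 := by rw [hq]; exact Real.sqrt_le_one.2 ht1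
  have hδt : δ ≤ t := by nlinarith
  have htq : t ≤ q := by nlinarith
  rw [← ht, ← hq]
  -- notation
  obtain ⟨r, hr⟩ : ∃ r : Fin m → ℝ, ∀ k, r k = ‖(a : ℂ) - w k‖ := ⟨fun k => _, fun k => rfl⟩
  obtain ⟨h, hh⟩ : ∃ h : Fin m → ℝ, ∀ k, h k = ‖1 - (a : ℂ) * l k‖ - (1 - (a : ℂ) * l k).re :=
    ⟨fun k => _, fun k => rfl⟩
  have h0 : ∀ k, 0 ≤ h k := fun k => by
    rw [hh]
    exact sub_nonneg.2 (Complex.re_le_norm _)
  have P := fun k => pk a (w k) (l k) (hlw k)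
  -- the basic sums
  have hD : ∑ k, (‖l k‖ - ‖w k‖) ^ 2 ≤ 2 * δ * m := by
    have e : ∑ k, (‖l k‖ - ‖w k‖) ^ 2 =
        ∑ k, ‖l k‖ ^ 2 + ∑ k, ‖w k‖ ^ 2 - 2 * ∑ k, ‖w k‖ * ‖l k‖ := by
      rw [Finset.mul_sum, ← Finset.sum_add_distrib, ← Finset.sum_sub_distrib]
      exact Finset.sum_congr rfl fun k _ => by ring
    rw [e]
    linarith
  have hlow : ∀ x y : Fin m → ℝ, ∑ k, x k ^ 2 ≤ m → (1 - δ) * m ≤ ∑ k, x k * y k →
      (1 - 2 * δ) * m ≤ ∑ k, y k ^ 2 := by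
    intro x y hx hxy
    have e : 0 ≤ ∑ k, (x k - y k) ^ 2 := Finset.sum_nonneg fun k _ => sq_nonneg _
    have e' : ∑ k, (x k - y k) ^ 2 = ∑ k, x k ^ 2 + ∑ k, y k ^ 2 - 2 * ∑ k, x k * y k := by
      rw [Finset.mul_sum, ← Finset.sum_add_distrib, ← Finset.sum_sub_distrib]
      exact Finset.sum_congr rfl fun k _ => by ring
    rw [e'] at e
    linarith
  have hlL : (1 - 2 * δ) * m ≤ ∑ k, ‖l k‖ ^ 2 := hlow _ _ hw2 hθ
  have hwL : (1 - 2 * δ) * m ≤ ∑ k, ‖w k‖ ^ 2 :=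
    hlow _ _ hl2 (by simpa only [mul_comm] using hθ)
  have hwre : ∑ k, (w k).re = 0 := by
    rw [← Complex.re_sum, hw0]
    simp
  -- the big `k`
  have hbig : ∀ k, L < ‖l k‖ → ‖w k‖ ≤ ‖l k‖ / 2 := by
    intro k hk
    have h1 : r k ≤ 1 := by
      have h2 := (P k).1
      rw [← hr] at h2
      have h3 : 0 ≤ r k := by rw [hr]; exact norm_nonneg _
      nlinarith
    have h2 : ‖w k‖ ≤ a + r k := by
      calc ‖w k‖ = ‖(a : ℂ) - ((a : ℂ) - w k)‖ := by rw [sub_sub_cancel]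
        _ ≤ ‖(a : ℂ)‖ + ‖(a : ℂ) - w k‖ := norm_sub_le _ _
        _ = a + r k := by rw [hr, Complex.norm_real, Real.norm_of_nonneg ha0.le]
    rw [hL] at hk
    linarith
  have hB4 : ∑ k ∈ Finset.univ.filter (fun k => L < ‖l k‖), ‖l k‖ ^ 2 ≤ 8 * δ * m := by
    have e1 : ∑ k ∈ Finset.univ.filter (fun k => L < ‖l k‖), ‖l k‖ ^ 2 ≤
        ∑ k ∈ Finset.univ.filter (fun k => L < ‖l k‖), 4 * (‖l k‖ - ‖w k‖) ^ 2 := by
      refine Finset.sum_le_sum fun k hk => ?_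
      have h1 := hbig k (Finset.mem_filter.1 hk).2
      have h2 := norm_nonneg (w k)
      have h3 : 0 ≤ ‖l k‖ / 2 := le_trans h2 h1
      have h4 : ‖l k‖ / 2 ≤ ‖l k‖ - ‖w k‖ := by linarith
      have h5 := mul_self_le_mul_self h3 h4
      nlinarith
    have e2 : ∑ k ∈ Finset.univ.filter (fun k => L < ‖l k‖), 4 * (‖l k‖ - ‖w k‖) ^ 2 ≤
        ∑ k, 4 * (‖l k‖ - ‖w k‖) ^ 2 :=
      Finset.sum_le_sum_of_subset_of_nonneg (Finset.filter_subset _ _) fun k _ _ => by positivity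
    rw [← Finset.mul_sum _ _ (4 : ℝ), ← Finset.mul_sum _ _ (4 : ℝ)] at e2
    rw [← Finset.mul_sum _ _ (4 : ℝ)] at e1
    linarith
  have hsplit : ∑ k ∈ Finset.univ.filter (fun k => L < ‖l k‖), ‖l k‖ ^ 2 +
      ∑ k ∈ Finset.univ.filter (fun k => ¬ L < ‖l k‖), ‖l k‖ ^ 2 = ∑ k, ‖l k‖ ^ 2 :=
    Finset.sum_filter_add_sum_filter_not _ _ _
  have hB5 : (1 - 10 * δ) * m ≤
      ∑ k ∈ Finset.univ.filter (fun k => ¬ L < ‖l k‖), ‖l k‖ ^ 2 := by linarith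
  -- the sum of the `h`
  have hr2 : ∑ k, r k ^ 2 ≤ m * (A ^ 2 + 1) := by
    have e : ∑ k, r k ^ 2 = m * a ^ 2 - 2 * a * ∑ k, (w k).re + ∑ k, ‖w k‖ ^ 2 := by
      rw [Finset.mul_sum]
      have e' : (m : ℝ) * a ^ 2 = ∑ _k : Fin m, a ^ 2 := by simp
      rw [e', ← Finset.sum_sub_distrib, ← Finset.sum_add_distrib]
      refine Finset.sum_congr rfl fun k _ => ?_
      rw [hr]
      exact (P k).2.2.2.2.2.1
    rw [e, hwre]
    have : a ^ 2 ≤ A ^ 2 := by nlinarith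
    nlinarith
  have hg : ∑ k, h k * r k ^ 2 ≤ C₂ * t * m := by
    have e : ∑ k, h k * r k ^ 2 = ∑ k, ‖w k‖ * r k - ∑ k, ‖w k‖ ^ 2 + a * ∑ k, (w k).re := by
      rw [Finset.mul_sum, ← Finset.sum_sub_distrib, ← Finset.sum_add_distrib]
      refine Finset.sum_congr rfl fun k _ => ?_
      rw [hr, hh]
      exact (P k).2.2.1
    have e1 : ∑ k, ‖w k‖ * r k ≤ ∑ k, (1 + (t * r k ^ 2 + (‖l k‖ - ‖w k‖) ^ 2 / t) / 2) := by
      refine Finset.sum_le_sum fun k _ => ?_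
      have h1 := (P k).1
      rw [← hr] at h1
      have h2 : 0 ≤ (t * r k + (‖l k‖ - ‖w k‖)) ^ 2 / t := by positivity
      have h3 : (t * r k + (‖l k‖ - ‖w k‖)) ^ 2 / t =
          t * r k ^ 2 + 2 * (r k * (‖l k‖ - ‖w k‖)) + (‖l k‖ - ‖w k‖) ^ 2 / t := by
        field_simp
        ring
      rw [h3] at h2
      nlinarith
    have e2 : ∑ k, (1 + (t * r k ^ 2 + (‖l k‖ - ‖w k‖) ^ 2 / t) / 2) =
        m + (t * ∑ k, r k ^ 2 + (∑ k, (‖l k‖ - ‖w k‖) ^ 2) / t) / 2 := by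
      rw [Finset.sum_add_distrib, ← Finset.sum_div, Finset.sum_add_distrib, ← Finset.mul_sum,
        ← Finset.sum_div]
      simp
    have e3 : (∑ k, (‖l k‖ - ‖w k‖) ^ 2) / t ≤ 2 * t * m := by
      rw [div_le_iff₀ ht0]
      calc ∑ k, (‖l k‖ - ‖w k‖) ^ 2 ≤ 2 * δ * m := hD
        _ = 2 * t * m * t := by rw [← htt]; ring
    have e4 : t * ∑ k, r k ^ 2 ≤ t * (m * (A ^ 2 + 1)) := mul_le_mul_of_nonneg_left hr2 ht0.le
    rw [e, hwre, hC₂]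
    have e5 : δ * m ≤ t * m := mul_le_mul_of_nonneg_right hδt hm0.le
    nlinarith
  have hsm : ∑ k ∈ Finset.univ.filter (fun k => ¬ L < ‖l k‖), h k ≤ L ^ 2 * C₂ * t * m := by
    have e1 : ∑ k ∈ Finset.univ.filter (fun k => ¬ L < ‖l k‖), h k ≤
        ∑ k ∈ Finset.univ.filter (fun k => ¬ L < ‖l k‖), L ^ 2 * (h k * r k ^ 2) := by
      refine Finset.sum_le_sum fun k hk => ?_
      have h1 := (P k).1
      rw [← hr] at h1
      have h2 : ‖l k‖ ≤ L := not_lt.1 (Finset.mem_filter.1 hk).2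
      have h3 : ‖l k‖ ^ 2 ≤ L ^ 2 := by
        have := norm_nonneg (l k)
        nlinarith
      have h4 : 0 ≤ h k * r k ^ 2 := mul_nonneg (h0 k) (sq_nonneg _)
      calc h k = ‖l k‖ ^ 2 * (h k * r k ^ 2) := by
            have : ‖l k‖ ^ 2 * (h k * r k ^ 2) = h k * (‖l k‖ * r k) ^ 2 := by ring
            rw [this, h1]
            ring
        _ ≤ L ^ 2 * (h k * r k ^ 2) := mul_le_mul_of_nonneg_right h3 h4
    have e2 : ∑ k ∈ Finset.univ.filter (fun k => ¬ L < ‖l k‖), L ^ 2 * (h k * r k ^ 2) ≤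
        ∑ k, L ^ 2 * (h k * r k ^ 2) :=
      Finset.sum_le_sum_of_subset_of_nonneg (Finset.filter_subset _ _) fun k _ _ =>
        mul_nonneg (sq_nonneg _) (mul_nonneg (h0 k) (sq_nonneg _))
    rw [← Finset.mul_sum Finset.univ] at e2
    have e3 : L ^ 2 * ∑ k, h k * r k ^ 2 ≤ L ^ 2 * (C₂ * t * m) :=
      mul_le_mul_of_nonneg_left hg (sq_nonneg _)
    calc _ ≤ _ := e1
      _ ≤ _ := e2
      _ ≤ _ := e3
      _ = _ := by ring
  have hbg : ∑ k ∈ Finset.univ.filter (fun k => L < ‖l k‖), h k ≤ 8 * δ * m := by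
    refine le_trans (Finset.sum_le_sum fun k hk => ?_) hB4
    have h1 := hbig k (Finset.mem_filter.1 hk).2
    have h2 : h k ≤ 2 * ‖1 - (a : ℂ) * l k‖ := by
      rw [hh]
      have := Complex.abs_re_le_norm (1 - (a : ℂ) * l k)
      have := neg_abs_le (1 - (a : ℂ) * l k).re
      linarith
    rw [(P k).2.1] at h2
    have h3 := norm_nonneg (l k)
    nlinarith
  have hH : ∑ k, h k ≤ C₃ * t * m := by
    rw [← Finset.sum_filter_add_sum_filter_not Finset.univ (fun k => L < ‖l k‖) h, hC₃]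
    have e5 : δ * m ≤ t * m := mul_le_mul_of_nonneg_right hδt hm0.le
    nlinarith
  -- first claim
  have hcl1 : 0 ≤ (∑ k, l k).re := by
    have e : ∑ k, ‖l k + (starRingEnd ℂ) (w k)‖ ^ 2 =
        ∑ k, ‖l k‖ ^ 2 + ∑ k, ‖w k‖ ^ 2 + 2 * a * (∑ k, l k).re - 2 * m := by
      rw [Complex.re_sum, Finset.mul_sum]
      have e' : 2 * (m : ℝ) = ∑ _k : Fin m, (2 : ℝ) := by simp [mul_comm]
      rw [e', ← Finset.sum_add_distrib, ← Finset.sum_add_distrib, ← Finset.sum_sub_distrib]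
      exact Finset.sum_congr rfl fun k _ => (P k).2.2.2.2.2.2
    have e1 : 0 ≤ ∑ k, ‖l k + (starRingEnd ℂ) (w k)‖ ^ 2 :=
      Finset.sum_nonneg fun k _ => sq_nonneg _
    rw [e] at e1
    have e2 : 0 ≤ a * (∑ k, l k).re := by linarith
    exact nonneg_of_mul_nonneg_right e2 ha0
  -- second claim
  have hcl2 : ‖(∑ k, l k) / m‖ ≤ (2 + 2 * C₃) * q := by
    have e1 : (∑ k, l k) = ∑ k, (l k + (starRingEnd ℂ) (w k)) := by
      rw [Finset.sum_add_distrib, ← map_sum, hw0, map_zero, add_zero]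
    have e2 : ‖∑ k, l k‖ ^ 2 ≤ m * ∑ k, ‖l k + (starRingEnd ℂ) (w k)‖ ^ 2 := by
      rw [e1]
      have e3 : ‖∑ k, (l k + (starRingEnd ℂ) (w k))‖ ≤ ∑ k, ‖l k + (starRingEnd ℂ) (w k)‖ :=
        norm_sum_le _ _
      have e4 := sq_sum_le_card_mul_sum_sq (s := (Finset.univ : Finset (Fin m)))
        (f := fun k => ‖l k + (starRingEnd ℂ) (w k)‖)
      rw [Finset.card_univ, Fintype.card_fin] at e4
      have e5 := norm_nonneg (∑ k, (l k + (starRingEnd ℂ) (w k)))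
      nlinarith
    have e3 : ∑ k, ‖l k + (starRingEnd ℂ) (w k)‖ ^ 2 ≤ (2 + 2 * C₃) * t * m := by
      have e4 : ∑ k, ‖l k + (starRingEnd ℂ) (w k)‖ ^ 2 =
          ∑ k, (‖l k‖ - ‖w k‖) ^ 2 + 2 * ∑ k, h k := by
        rw [Finset.mul_sum, ← Finset.sum_add_distrib]
        refine Finset.sum_congr rfl fun k _ => ?_
        rw [hh]
        exact (P k).2.2.2.1
      rw [e4]
      have e5 : δ * m ≤ t * m := mul_le_mul_of_nonneg_right hδt hm0.le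
      nlinarith
    rw [norm_div, Complex.norm_natCast, div_le_iff₀ hm0]
    refine abs_le_of_sq_le_sq' ?_ (by positivity) |>.2
    calc ‖∑ k, l k‖ ^ 2 ≤ m * ((2 + 2 * C₃) * t * m) :=
          e2.trans (mul_le_mul_of_nonneg_left e3 hm0.le)
      _ = (2 + 2 * C₃) * (q * m) ^ 2 := by rw [← hqq]; ring
      _ ≤ (2 + 2 * C₃) ^ 2 * (q * m) ^ 2 := by
          refine mul_le_mul_of_nonneg_right ?_ (sq_nonneg _)
          nlinarith
      _ = ((2 + 2 * C₃) * q * m) ^ 2 := by ring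
  -- last claim
  have hcl6 : ∑ k ∈ Finset.univ.filter (fun k => ¬ L < ‖l k‖), (|(l k).im| + h k / a) ^ 2 ≤
      C₄ * t * m := by
    have e1 : ∑ k ∈ Finset.univ.filter (fun k => ¬ L < ‖l k‖), (|(l k).im| + h k / a) ^ 2 ≤
        ∑ k ∈ Finset.univ.filter (fun k => ¬ L < ‖l k‖), 8 * (1 + A * L) / a₁ ^ 2 * h k := by
      refine Finset.sum_le_sum fun k hk => ?_
      have h2 : ‖l k‖ ≤ L := not_lt.1 (Finset.mem_filter.1 hk).2
      have h3 : ‖1 - (a : ℂ) * l k‖ ≤ 1 + A * L := by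
        calc ‖1 - (a : ℂ) * l k‖ ≤ ‖(1 : ℂ)‖ + ‖(a : ℂ) * l k‖ := norm_sub_le _ _
          _ = 1 + a * ‖l k‖ := by
              rw [norm_one, norm_mul, Complex.norm_real, Real.norm_of_nonneg ha0.le]
          _ ≤ 1 + A * L := by
              have := norm_nonneg (l k)
              nlinarith
      have h4 := Complex.re_le_norm (1 - (a : ℂ) * l k)
      have h5 := Complex.abs_re_le_norm (1 - (a : ℂ) * l k)
      have h6 := neg_abs_le (1 - (a : ℂ) * l k).re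
      have h7 : a ^ 2 * (l k).im ^ 2 ≤ 2 * (1 + A * L) * h k := by
        rw [(P k).2.2.2.2.1, ← hh]
        have h8 : ‖1 - (a : ℂ) * l k‖ + (1 - (a : ℂ) * l k).re ≤ 2 * (1 + A * L) := by linarith
        calc h k * (‖1 - (a : ℂ) * l k‖ + (1 - (a : ℂ) * l k).re) ≤ h k * (2 * (1 + A * L)) :=
              mul_le_mul_of_nonneg_left h8 (h0 k)
          _ = _ := by ring
      have h8 : h k ^ 2 ≤ 2 * (1 + A * L) * h k := by
        have h9 : h k ≤ 2 * (1 + A * L) := by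
          rw [hh]
          linarith
        calc h k ^ 2 = h k * h k := by ring
          _ ≤ 2 * (1 + A * L) * h k := mul_le_mul_of_nonneg_right h9 (h0 k)
      have h9 : (|(l k).im| + h k / a) ^ 2 ≤ 2 * (l k).im ^ 2 + 2 * (h k / a) ^ 2 := by
        have h10 := sq_nonneg (|(l k).im| - h k / a)
        have h11 := sq_abs (l k).im
        nlinarith
      have h10 : 2 * (l k).im ^ 2 + 2 * (h k / a) ^ 2 ≤ 8 * (1 + A * L) * h k / a ^ 2 := by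
        rw [le_div_iff₀ (by positivity)]
        have h11 : (h k / a) ^ 2 * a ^ 2 = h k ^ 2 := by
          field_simp
        nlinarith
      have h11 : 8 * (1 + A * L) * h k / a ^ 2 ≤ 8 * (1 + A * L) / a₁ ^ 2 * h k := by
        have h12 : 8 * (1 + A * L) / a₁ ^ 2 * h k = 8 * (1 + A * L) * h k / a₁ ^ 2 := by ring
        rw [h12]
        have h13 : 0 ≤ 8 * (1 + A * L) * h k := mul_nonneg (by positivity) (h0 k)
        have h14 : a₁ ^ 2 ≤ a ^ 2 := by nlinarith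
        exact div_le_div_of_nonneg_left h13 (by positivity) h14
      linarith
    rw [← Finset.mul_sum] at e1
    have e2 : 8 * (1 + A * L) / a₁ ^ 2 *
        ∑ k ∈ Finset.univ.filter (fun k => ¬ L < ‖l k‖), h k ≤
        8 * (1 + A * L) / a₁ ^ 2 * (L ^ 2 * C₂ * t * m) :=
      mul_le_mul_of_nonneg_left hsm (by positivity)
    rw [hC₄]
    calc _ ≤ _ := e1
      _ ≤ _ := e2
      _ = _ := by ring
  -- third claim
  have hcl3 : ‖yR L l - 1‖ ≤ (C₄ + 11) * q := by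
    have hy : ∑ k ∈ Finset.univ.filter (fun k => ¬ L < ‖l k‖), (l k).im ^ 2 ≤ C₄ * t * m := by
      refine le_trans (Finset.sum_le_sum fun k _ => ?_) hcl6
      have h1 : 0 ≤ h k / a := div_nonneg (h0 k) ha0.le
      have h2 := abs_nonneg (l k).im
      have h3 := sq_abs (l k).im
      nlinarith
    have e1 : ‖∑ k ∈ Finset.univ.filter (fun k => ¬ L < ‖l k‖), l k ^ 2 -
        ((∑ k ∈ Finset.univ.filter (fun k => ¬ L < ‖l k‖), ‖l k‖ ^ 2 : ℝ) : ℂ)‖ ≤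
        (C₄ + 1) * q * m := by
      rw [Complex.ofReal_sum, ← Finset.sum_sub_distrib]
      refine (norm_sum_le _ _).trans ?_
      have e2 : ∑ k ∈ Finset.univ.filter (fun k => ¬ L < ‖l k‖),
          ‖l k ^ 2 - ((‖l k‖ ^ 2 : ℝ) : ℂ)‖ ≤
          ∑ k ∈ Finset.univ.filter (fun k => ¬ L < ‖l k‖),
            ((l k).im ^ 2 / q + q * ‖l k‖ ^ 2) := by
        refine Finset.sum_le_sum fun k _ => ?_
        have h1 : l k ^ 2 - ((‖l k‖ ^ 2 : ℝ) : ℂ) = 2 * Complex.I * (l k).im * l k := by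
          have h2 : ((‖l k‖ ^ 2 : ℝ) : ℂ) = l k * (starRingEnd ℂ) (l k) := by
            rw [Complex.mul_conj, Complex.normSq_eq_norm_sq]
          rw [h2]
          have h3 : l k - (starRingEnd ℂ) (l k) = 2 * Complex.I * (l k).im := by
            rw [Complex.sub_conj]
            push_cast
            ring
          linear_combination (l k) * h3
        rw [h1]
        have h4 : ‖2 * Complex.I * ((l k).im : ℂ) * l k‖ = 2 * |(l k).im| * ‖l k‖ := by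
          rw [norm_mul, norm_mul, norm_mul, Complex.norm_I, Complex.norm_real, Real.norm_eq_abs]
          simp
        rw [h4]
        have h5 : 0 ≤ (|(l k).im| - q * ‖l k‖) ^ 2 / q := by positivity
        have h6 : (|(l k).im| - q * ‖l k‖) ^ 2 / q =
            (l k).im ^ 2 / q - 2 * |(l k).im| * ‖l k‖ + q * ‖l k‖ ^ 2 := by
          rw [← sq_abs (l k).im]
          field_simp
          ring
        rw [h6] at h5
        linarith
      refine e2.trans ?_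
      rw [Finset.sum_add_distrib, ← Finset.sum_div, ← Finset.mul_sum]
      have e3 : (∑ k ∈ Finset.univ.filter (fun k => ¬ L < ‖l k‖), (l k).im ^ 2) / q ≤
          C₄ * q * m := by
        rw [div_le_iff₀ hq0]
        refine hy.trans (le_of_eq ?_)
        rw [← hqq]
        ring
      have e4 : ∑ k ∈ Finset.univ.filter (fun k => ¬ L < ‖l k‖), ‖l k‖ ^ 2 ≤ m := by
        have : 0 ≤ ∑ k ∈ Finset.univ.filter (fun k => L < ‖l k‖), ‖l k‖ ^ 2 :=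
          Finset.sum_nonneg fun k _ => sq_nonneg _
        linarith
      have e5 : q * ∑ k ∈ Finset.univ.filter (fun k => ¬ L < ‖l k‖), ‖l k‖ ^ 2 ≤ q * m :=
        mul_le_mul_of_nonneg_left e4 hq0.le
      nlinarith
    have e6 : ‖((∑ k ∈ Finset.univ.filter (fun k => ¬ L < ‖l k‖), ‖l k‖ ^ 2 : ℝ) : ℂ) - m‖ ≤
        10 * q * m := by
      have : ((∑ k ∈ Finset.univ.filter (fun k => ¬ L < ‖l k‖), ‖l k‖ ^ 2 : ℝ) : ℂ) - m =
          ((∑ k ∈ Finset.univ.filter (fun k => ¬ L < ‖l k‖), ‖l k‖ ^ 2 - m : ℝ) : ℂ) := by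
        push_cast
        ring
      rw [this, Complex.norm_real, Real.norm_eq_abs, abs_le]
      have e4 : ∑ k ∈ Finset.univ.filter (fun k => ¬ L < ‖l k‖), ‖l k‖ ^ 2 ≤ m := by
        have : 0 ≤ ∑ k ∈ Finset.univ.filter (fun k => L < ‖l k‖), ‖l k‖ ^ 2 :=
          Finset.sum_nonneg fun k _ => sq_nonneg _
        linarith
      have e5 : δ * m ≤ q * m := mul_le_mul_of_nonneg_right (hδt.trans htq) hm0.le
      have e7 : 0 < q * m := by positivity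
      constructor <;> nlinarith
    have e8 : yR L l - 1 = ((∑ k ∈ Finset.univ.filter (fun k => ¬ L < ‖l k‖), l k ^ 2 -
        ((∑ k ∈ Finset.univ.filter (fun k => ¬ L < ‖l k‖), ‖l k‖ ^ 2 : ℝ) : ℂ)) +
        (((∑ k ∈ Finset.univ.filter (fun k => ¬ L < ‖l k‖), ‖l k‖ ^ 2 : ℝ) : ℂ) - m)) / m := by
      have hm' : (m : ℂ) ≠ 0 := by exact_mod_cast hm0.ne'
      unfold yR
      field_simp
      ring
    rw [e8, norm_div, Complex.norm_natCast, div_le_iff₀ hm0]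
    refine (norm_add_le _ _).trans ?_
    linarith
  refine ⟨?_, hcl2, hcl3, hB4, hB5, ?_⟩
  · have : ((∑ k, l k) / (m : ℂ)).re = (∑ k, l k).re / m := by
      rw [← Complex.ofReal_natCast, Complex.div_ofReal_re]
    rw [this]
    exact div_nonneg hcl1 hm0.le
  · simpa only [hh] using hcl6

theorem t_L4 : S_L4 := by
  intro A a₁ ha₁ ha₁A hA
  have hL0 : (0 : ℝ) < 2 * (A + 1) := by linarith
  obtain ⟨C₂, hC₂⟩ : ∃ C₂ : ℝ, C₂ = (A ^ 2 + 1) / 2 + 3 := ⟨_, rfl⟩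
  obtain ⟨C₃, hC₃⟩ : ∃ C₃ : ℝ, C₃ = (2 * (A + 1)) ^ 2 * C₂ + 8 := ⟨_, rfl⟩
  obtain ⟨C₄, hC₄⟩ : ∃ C₄ : ℝ, C₄ = 8 * (1 + A * (2 * (A + 1))) / a₁ ^ 2 *
    ((2 * (A + 1)) ^ 2 * C₂) := ⟨_, rfl⟩
  have hC₂0 : 0 < C₂ := by rw [hC₂]; positivity
  have hC₃0 : 0 < C₃ := by rw [hC₃]; positivity
  have hA0 : 0 < A := by linarith
  have hC₄0 : 0 ≤ C₄ := by rw [hC₄]; positivity
  refine ⟨(2 + 2 * C₃) + (C₄ + 11), by linarith, ?_⟩
  intro m w a δ hm ha haA hδ hδ1 hwa hw0 hw2 hl2 hθ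
  obtain ⟨h1, h2, h3, h4, h5, h6⟩ := core A a₁ ha₁ hA (2 * (A + 1)) C₂ C₃ C₄ rfl hC₂ hC₃ hC₄ m w
    (fun k => ((a : ℂ) - w k)⁻¹) a δ hm ha haA hδ hδ1
    (fun k => inv_mul_cancel₀ (sub_ne_zero.2 (hwa k).symm)) hw0 hw2 hl2 hθ
  have hs : 0 ≤ Real.sqrt (Real.sqrt δ) := Real.sqrt_nonneg _
  have hs' : 0 ≤ Real.sqrt δ := Real.sqrt_nonneg _
  have hm0 : (0 : ℝ) ≤ m := Nat.cast_nonneg m
  refine ⟨h1, h2.trans ?_, h3.trans ?_, h4, h5, h6.trans ?_⟩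
  · exact mul_le_mul_of_nonneg_right (by linarith) hs
  · exact mul_le_mul_of_nonneg_right (by linarith) hs
  · exact mul_le_mul_of_nonneg_right (mul_le_mul_of_nonneg_right (by linarith) hs') hm0

end Pool.Agent.H570.BV
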